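import Pool.Agent.R477.WD.Gen
import Pool.Agent.R393.SP.Main

set_option autoImplicit false

/-!
# The complex case

Weighted automata over the complex numbers with values on a variety without rational curves.
-/

namespace Pool.Agent.R477.WD

open MvPolynomial Pool.Agent.R477.WA Pool.Agent.R393.SP Pool.Agent.TH717.GO

variable {A ι ν : Type} [CommRing A] {n a r q : ℕ} {F : ι → MvPolynomial (Fin (n + 1)) A}
  {G : ν → MvPolynomial (Fin (n + 1)) A}

theorem curCond_c (hrat : RatInA F G) (σ : A →+* ℂ) (hσ : Function.Injective σ) (l : ν) (R : ℕ) :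
    CurCond (Set.range fun i => map σ (F i)) (map σ (G l)) R := by
  intro L _ _ p S _ _ hF hG i i'
  by_contra hne
  have hcz : CharZero L := charZero_of_injective_algebraMap (algebraMap ℂ L).injective
  have h6 : ∃ t, (p i).eval t * (p i').eval 1 ≠ (p i').eval t * (p i).eval 1 := by
    by_contra h7
    push Not at h7
    apply hne
    apply Polynomial.funext
    intro t
    rw [Polynomial.eval_mul, Polynomial.eval_mul, Polynomial.eval_C, Polynomial.eval_C]
    exact h7 t
  obtain ⟨t, ht⟩ := h6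
  have hmm' : ∀ P : MvPolynomial (Fin (n + 1)) A, aeval p (map ((algebraMap ℂ L).comp σ) P) =
      aeval p (map σ P) := by
    intro P
    rw [← map_map, aeval_map_algebraMap]
  have h7 := hrat L ((algebraMap ℂ L).comp σ) ((algebraMap ℂ L).injective.comp hσ) p
    (fun i => by rw [hmm']; exact hF _ ⟨i, rfl⟩) ⟨t, 1, i, i', ht⟩ l
  rw [hmm'] at h7
  apply hG
  have h4 := MvPolynomial.comp_aeval_apply (R := ℂ) p
    ((Polynomial.aeval (1 : L) : Polynomial L →ₐ[L] L).restrictScalars ℂ) (map σ (G l))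
  have h5 : MvPolynomial.aeval (fun i => (p i).eval 1) (map σ (G l)) =
      (MvPolynomial.aeval p (map σ (G l))).eval 1 := h4.symm
  rw [h5, h7, Polynomial.eval_zero]

theorem kp_c (hF : ∀ i, ∃ d, (F i).IsHomogeneous d) (hG : ∀ l, ∃ d, (G l).IsHomogeneous d)
    (hrat : RatInA F G) (σ : A →+* ℂ) (hσ : Function.Injective σ) :
    KP (Set.range fun i => map σ (F i)) (col σ G) := by
  classical
  intro d H hH
  let ρ : H →* Matrix.GeneralLinearGroup (Fin d) ℂ := H.subtype
  have hfg : Group.FG H := Group.fg_iff_subgroup_fg H |>.2 hH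
  refine ⟨NN ρ, inferInstance, ⟨NN_fin hfg ρ⟩, ?_⟩
  intro ℓ y hX
  have horb : ∀ g : H, orb (LinearMap.toMatrix' ℓ) ρ y g =
      ℓ (((g : Matrix.GeneralLinearGroup (Fin d) ℂ) : Matrix (Fin d) (Fin d) ℂ).mulVec y) := by
    intro g
    unfold orb
    rw [LinearMap.toMatrix'_mulVec]
    rfl
  have hae : ∀ (x : Fin (n + 1) → ℂ) (P : MvPolynomial (Fin (n + 1)) A),
      aeval x (map σ P) = eval₂ σ x P := by
    intro x P
    rw [aeval_def, eval₂_map]
    rfl
  have key : ∀ g g' : H, g⁻¹ * g' ∈ NN ρ →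
      ℓ (((g : Matrix.GeneralLinearGroup (Fin d) ℂ) : Matrix (Fin d) (Fin d) ℂ).mulVec y) ≠ 0 →
      ℓ (((g' : Matrix.GeneralLinearGroup (Fin d) ℂ) : Matrix (Fin d) (Fin d) ℂ).mulVec y) ≠ 0 →
      (¬ ∀ l, eval₂ σ (ℓ (((g : Matrix.GeneralLinearGroup (Fin d) ℂ) :
        Matrix (Fin d) (Fin d) ℂ).mulVec y)) (G l) = 0) →
      ∃ c : ℂ, c ≠ 0 ∧ ℓ (((g' : Matrix.GeneralLinearGroup (Fin d) ℂ) :
        Matrix (Fin d) (Fin d) ℂ).mulVec y) = c • ℓ (((g : Matrix.GeneralLinearGroup (Fin d) ℂ) :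
        Matrix (Fin d) (Fin d) ℂ).mulVec y) := by
    intro g g' hgg h1 h2 h3
    push Not at h3
    obtain ⟨l, hl⟩ := h3
    refine exists_prop _ _ h1 h2 fun i i' => ?_
    have h4 := neat_const (k := ℂ) (K := ℂ) (Set.range fun i => map σ (F i))
      (by rintro _ ⟨i, rfl⟩; obtain ⟨d, hd⟩ := hF i; exact ⟨d, hd.map σ⟩) (map σ (G l))
      (by obtain ⟨d, hd⟩ := hG l; exact ⟨d, hd.map σ⟩) (curCond_c hrat σ hσ l (d * d))
      (LinearMap.toMatrix' ℓ) ρ y
      (by
        rintro h _ ⟨i, rfl⟩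
        rw [horb]
        exact hX h _ ⟨i, rfl⟩) (g⁻¹ * g') hgg g (by
          rw [horb, hae]
          exact hl) i i'
    rwa [mul_inv_cancel_left, horb, horb] at h4
  intro g g' hgg h1 h2
  by_cases h3 : ∀ l, eval₂ σ (ℓ (((g : Matrix.GeneralLinearGroup (Fin d) ℂ) :
        Matrix (Fin d) (Fin d) ℂ).mulVec y)) (G l) = 0
  · by_cases h4 : ∀ l, eval₂ σ (ℓ (((g' : Matrix.GeneralLinearGroup (Fin d) ℂ) :
        Matrix (Fin d) (Fin d) ℂ).mulVec y)) (G l) = 0
    · unfold col
      rw [if_pos h3, if_pos h4]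
    · obtain ⟨c, hc, h5⟩ := key g' g (by
        have h6 : g'⁻¹ * g = (g⁻¹ * g')⁻¹ := by group
        rw [h6]
        exact Subgroup.inv_mem _ hgg) h2 h1 h4
      rw [h5, col_smul σ hG c hc]
  · obtain ⟨c, hc, h5⟩ := key g g' hgg h1 h2 h3
    rw [h5, col_smul σ hG c hc]

/-- **the complex case** -/
theorem complex_case (hF : ∀ i, ∃ d, (F i).IsHomogeneous d) (hG : ∀ l, ∃ d, (G l).IsHomogeneous d)
    (hrat : RatInA F G) (σ : A →+* ℂ) (hσ : Function.Injective σ) (D : DFA (Fin a) (Fin q))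
    (t : Par n a r → ℂ) (hv : Valid σ F D t) :
    ∃ (b : ℕ) (ws : Fin b → List (Fin a)) (δ : Fin b → Fin a → Fin b) (s : Fin b),
      (∀ i c u, Same σ G D t (ws i ++ ([c] ++ u)) (ws (δ i c) ++ u)) ∧
      ∀ u, Same σ G D t u (ws s ++ u) := by
  classical
  let S := sysOf D (parT t) (parM t)
  have hout : ∀ w, S.out (S.dst D.start w) =
      if w ∈ D.accepts then some (parM t).mulVecLin else none := by
    intro w
    show (if S.dst D.start w ∈ D.accept then some (parM t).mulVecLin else none) = _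
    rw [sysOf_dst]
    rfl
  have hpv : ∀ w, (parM t).mulVecLin (vec (parT t) (parv t) w) = pval t w := fun w => rfl
  have hval : S.Valid (Ok (Set.range fun i => map σ (F i))) D.start (parv t) := by
    intro w M' hM'
    rw [hout] at hM'
    split_ifs at hM' with hw
    · rw [Option.mem_def, Option.some_inj] at hM'
      subst hM'
      rw [sysOf_Bw, hpv]
      obtain ⟨h1, h2⟩ := hv w hw
      refine ⟨fun h0 => ?_, ?_⟩
      · obtain ⟨i, hi⟩ := h1
        exact hi (congrFun h0 i)
      · rintro _ ⟨i, rfl⟩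
        rw [eval_map]
        exact h2 i
    · exact absurd hM' (by simp)
  have hauto : Auto (S.beh (col σ G) D.start (parv t)) :=
    auto_main (col σ G) (fun c hc y => col_smul σ hG c hc y) (Set.range fun i => map σ (F i))
      (kp_c hF hG hrat σ hσ) r _ S D.start (parv t)
      (fun q => (Submodule.finrank_le _).trans (by rw [Module.finrank_fin_fun])) le_rfl
      Submodule.mem_top hval
  have hbeh : ∀ w, S.beh (col σ G) D.start (parv t) w =
      if w ∈ D.accepts then some (col σ G (pval t w)) else none := by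
    intro w
    unfold Sys.beh Sys.val
    rw [hout, sysOf_Bw]
    split_ifs
    · rw [Option.map_some, hpv]
    · rfl
  set f := S.beh (col σ G) D.start (parv t) with hf
  have hsame : ∀ x y, f x = f y → Same σ G D t x y := by
    intro x y hxy
    rw [hbeh, hbeh] at hxy
    have h1 : x ∈ D.accepts ↔ y ∈ D.accepts := by
      by_cases hx : x ∈ D.accepts
      · by_cases hy : y ∈ D.accepts
        · exact iff_of_true hx hy
        · rw [if_pos hx, if_neg hy] at hxy
          exact absurd hxy (by simp)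
      · by_cases hy : y ∈ D.accepts
        · rw [if_neg hx, if_pos hy] at hxy
          exact absurd hxy (by simp)
        · exact iff_of_false hx hy
    refine ⟨h1, fun hx => ?_⟩
    have hy := h1.1 hx
    rw [if_pos hx, if_pos hy, Option.some_inj] at hxy
    have hne : ∀ w ∈ D.accepts, pval t w ≠ 0 := by
      intro w hw h0
      obtain ⟨⟨i, hi⟩, -⟩ := hv w hw
      exact hi (congrFun h0 i)
    exact (col_iff σ hG t x y (hne x hx) (hne y hy)).2 hxy
  let Q : Set (List (Fin a) → Option (Option (Submodule ℂ (Fin (n + 1) → ℂ)))) :=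
    Set.range fun (w : List (Fin a)) (u : List (Fin a)) => f (w ++ u)
  have hQ : Q.Finite := hauto
  have : Finite Q := hQ
  have : Fintype Q := Fintype.ofFinite Q
  let e := Fintype.equivFin Q
  have hw : ∀ i : Fin (Fintype.card Q), ∃ w : List (Fin a),
      (fun u => f (w ++ u)) = (e.symm i : Q).1 := fun i => (e.symm i).2
  choose ws hws using hw
  refine ⟨Fintype.card Q, ws, fun i c => e ⟨fun u => f ((ws i ++ [c]) ++ u), ⟨ws i ++ [c], rfl⟩⟩,
    e ⟨fun u => f ([] ++ u), ⟨[], rfl⟩⟩, fun i c u => hsame _ _ ?_, fun u => hsame _ _ ?_⟩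
  · have h1 := congrFun (hws (e ⟨fun u => f ((ws i ++ [c]) ++ u), ⟨ws i ++ [c], rfl⟩⟩)) u
    rw [e.symm_apply_apply] at h1
    rw [← List.append_assoc]
    exact h1.symm
  · have h1 := congrFun (hws (e ⟨fun u => f ([] ++ u), ⟨[], rfl⟩⟩)) u
    rw [e.symm_apply_apply] at h1
    exact h1.symm

end Pool.Agent.R477.WD
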