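import Pool.Agent.R477.WA.Fin
import Pool.Agent.R477.WA.Reg

set_option autoImplicit false

/-!
# The generic weighted automaton

The value of a weighted automaton at a word is a polynomial in the entries of its matrices, and
equality of two points is an algebraic condition on these entries.
-/

namespace Pool.Agent.R477.WD

open MvPolynomial Pool.Agent.R477.WA Pool.Agent.Y719.SU

/-- the value of the automaton with the matrices `T a`, `M` and the vector `v` -/
def val {R α : Type} [CommRing R] {n r : ℕ} (T : α → Matrix (Fin r) (Fin r) R)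
    (M : Matrix (Fin (n + 1)) (Fin r) R) (v : Fin r → R) (w : List α) : Fin (n + 1) → R :=
  M.mulVec (w.foldl (fun x a => (T a).mulVec x) v)

theorem val_eq {L α : Type} [Field L] {n r : ℕ} (T : α → Matrix (Fin r) (Fin r) L)
    (M : Matrix (Fin (n + 1)) (Fin r) L) (v : Fin r → L) (w : List α) :
    val T M v w = M.mulVec (vec T v w) := rfl

theorem val_map {R R' α : Type} [CommRing R] [CommRing R'] {n r : ℕ} (ψ : R →+* R')
    (T : α → Matrix (Fin r) (Fin r) R) (M : Matrix (Fin (n + 1)) (Fin r) R) (v : Fin r → R)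
    (w : List α) : (fun i => ψ (val T M v w i)) =
      val (fun a => (T a).map ψ) (M.map ψ) (fun i => ψ (v i)) w := by
  have h1 : ∀ (w : List α) (x : Fin r → R),
      (fun i => ψ ((w.foldl (fun x a => (T a).mulVec x) x) i)) =
        w.foldl (fun x a => ((T a).map ψ).mulVec x) (fun i => ψ (x i)) := by
    intro w
    induction w with
    | nil =>
      intro x
      rfl
    | cons a w ih =>
      intro x
      rw [List.foldl_cons, List.foldl_cons, ih]
      congr 1
      funext i
      exact RingHom.map_mulVec ψ (T a) x i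
  funext i
  unfold val
  rw [← h1 w v]
  exact RingHom.map_mulVec ψ M _ i

/-- the parameters of a weighted automaton -/
abbrev Par (n a r : ℕ) : Type := (Fin (n + 1) × Fin r) ⊕ ((Fin a × Fin r × Fin r) ⊕ Fin r)

section generic

variable {A ι ν : Type} [CommRing A] {n a r q : ℕ}

/-- the matrices with the given parameters -/
def parT {R : Type} (t : Par n a r → R) (c : Fin a) : Matrix (Fin r) (Fin r) R :=
  Matrix.of fun i j => t (Sum.inr (Sum.inl (c, i, j)))

/-- the matrix `M` with the given parameters -/
def parM {R : Type} (t : Par n a r → R) : Matrix (Fin (n + 1)) (Fin r) R :=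
  Matrix.of fun i j => t (Sum.inl (i, j))

/-- the vector with the given parameters -/
def parv {R : Type} (t : Par n a r → R) : Fin r → R := fun i => t (Sum.inr (Sum.inr i))

/-- the value of the automaton with the given parameters -/
def pval {R : Type} [CommRing R] (t : Par n a r → R) (w : List (Fin a)) : Fin (n + 1) → R :=
  val (parT t) (parM t) (parv t) w

theorem pval_map {R R' : Type} [CommRing R] [CommRing R'] (ψ : R →+* R') (t : Par n a r → R)
    (w : List (Fin a)) : (fun i => ψ (pval t w i)) = pval (fun p => ψ (t p)) w :=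
  val_map ψ _ _ _ w

/-- the parameters of given matrices -/
def toPar {R : Type} (T : Fin a → Matrix (Fin r) (Fin r) R) (M : Matrix (Fin (n + 1)) (Fin r) R)
    (v : Fin r → R) : Par n a r → R
  | Sum.inl (i, j) => M i j
  | Sum.inr (Sum.inl (c, i, j)) => T c i j
  | Sum.inr (Sum.inr i) => v i

theorem pval_toPar {R : Type} [CommRing R] (T : Fin a → Matrix (Fin r) (Fin r) R)
    (M : Matrix (Fin (n + 1)) (Fin r) R) (v : Fin r → R) (w : List (Fin a)) :
    pval (toPar T M v) w = val T M v w := rfl

/-- the generic value -/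
noncomputable def xg (A : Type) [CommRing A] (n a r : ℕ) (w : List (Fin a)) :
    Fin (n + 1) → MvPolynomial (Par n a r) A := pval X w

theorem ev_xg {K : Type} [CommRing K] (φ : A →+* K) (t : Par n a r → K) (w : List (Fin a))
    (i : Fin (n + 1)) : eval₂ φ t (xg A n a r w i) = pval t w i := by
  have h1 := congrFun (pval_map (eval₂Hom φ t) (X : Par n a r → MvPolynomial (Par n a r) A) w) i
  have h2 : (fun p => eval₂Hom φ t (X p : MvPolynomial (Par n a r) A)) = t := by
    funext p
    exact eval₂Hom_X' φ t p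
  rw [h2] at h1
  exact h1

theorem ev_form {K : Type} [CommRing K] (φ : A →+* K) (t : Par n a r → K) (w : List (Fin a))
    (P : MvPolynomial (Fin (n + 1)) A) :
    eval₂ φ t (aeval (xg A n a r w) P) = eval₂ φ (pval t w) P := by
  have h1 := hom_eval₂ P (algebraMap A (MvPolynomial (Par n a r) A)) (eval₂Hom φ t)
    (xg A n a r w)
  have h2 : (eval₂Hom φ t).comp (algebraMap A (MvPolynomial (Par n a r) A)) = φ := by
    apply RingHom.ext
    intro a
    exact eval₂Hom_C φ t a
  have h3 : (fun i => eval₂Hom φ t (xg A n a r w i)) = pval t w := by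
    funext i
    exact ev_xg φ t w i
  rw [h2] at h1
  rw [aeval_def]
  refine h1.trans ?_
  show eval₂ φ (fun i => eval₂Hom φ t (xg A n a r w i)) P = _
  rw [h3]

/-- the equations for the values at `w` and `w'` to be the same point or points of `G = 0` -/
def Eqs (G : ν → MvPolynomial (Fin (n + 1)) A) (a r : ℕ) (w w' : List (Fin a)) :
    Set (MvPolynomial (Par n a r) A) :=
  {P | ∃ (i j : Fin (n + 1)) (l : ν),
    P = (xg A n a r w i * xg A n a r w' j - xg A n a r w j * xg A n a r w' i) *
      aeval (xg A n a r w) (G l) ∨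
    P = (xg A n a r w i * xg A n a r w' j - xg A n a r w j * xg A n a r w' i) *
      aeval (xg A n a r w') (G l)}

/-- the output at two words is the same -/
def Same {K : Type} [Field K] (φ : A →+* K) (G : ν → MvPolynomial (Fin (n + 1)) A)
    (D : DFA (Fin a) (Fin q)) (t : Par n a r → K) (w w' : List (Fin a)) : Prop :=
  (w ∈ D.accepts ↔ w' ∈ D.accepts) ∧
    (w ∈ D.accepts → ∀ P ∈ Eqs G a r w w', eval₂ φ t P = 0)

/-- the values at the accepted words are points of `F = 0` -/
def Valid {K : Type} [Field K] (φ : A →+* K) (F : ι → MvPolynomial (Fin (n + 1)) A)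
    (D : DFA (Fin a) (Fin q)) (t : Par n a r → K) : Prop :=
  ∀ w ∈ D.accepts, (∃ i, pval t w i ≠ 0) ∧ ∀ i, eval₂ φ (pval t w) (F i) = 0

open Classical in
/-- the colour of a vector: the point, if it is not in `G = 0` -/
noncomputable def col {K : Type} [Field K] (φ : A →+* K) (G : ν → MvPolynomial (Fin (n + 1)) A)
    (x : Fin (n + 1) → K) : Option (Submodule K (Fin (n + 1) → K)) :=
  if ∀ l, eval₂ φ x (G l) = 0 then none else some (Submodule.span K {x})

theorem ev_smul {K : Type} [Field K] (φ : A →+* K) {P : MvPolynomial (Fin (n + 1)) A} {d : ℕ}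
    (hP : P.IsHomogeneous d) (c : K) (x : Fin (n + 1) → K) :
    eval₂ φ (c • x) P = c ^ d * eval₂ φ x P :=
  Pool.Agent.TH143.HE.eval₂_smul_homog φ c x hP

/-- proportional vectors have the same colour -/
theorem col_smul {K : Type} [Field K] (φ : A →+* K) {G : ν → MvPolynomial (Fin (n + 1)) A}
    (hG : ∀ l, ∃ d, (G l).IsHomogeneous d) (c : K) (hc : c ≠ 0) (x : Fin (n + 1) → K) :
    col φ G (c • x) = col φ G x := by
  have h1 : Submodule.span K {c • x} = Submodule.span K {x} :=
    Submodule.span_singleton_smul_eq (IsUnit.mk0 c hc) x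
  have h2 : (∀ l, eval₂ φ (c • x) (G l) = 0) ↔ ∀ l, eval₂ φ x (G l) = 0 := by
    refine forall_congr' fun l => ?_
    obtain ⟨d, hd⟩ := hG l
    rw [ev_smul φ hd, mul_eq_zero, or_iff_right (pow_ne_zero d hc)]
  by_cases h3 : ∀ l, eval₂ φ x (G l) = 0
  · unfold col
    rw [if_pos h3, if_pos (h2.2 h3)]
  · unfold col
    rw [if_neg h3, if_neg (fun h => h3 (h2.1 h)), h1]

theorem prop_iff {K : Type} [Field K] {x y : Fin (n + 1) → K} (hx : x ≠ 0) (hy : y ≠ 0) :
    (∀ i j, x i * y j - x j * y i = 0) ↔ ∃ c : K, c ≠ 0 ∧ y = c • x := by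
  constructor
  · intro h
    exact exists_prop x y hx hy fun i i' => by
      have := h i' i
      linear_combination this
  · rintro ⟨c, -, rfl⟩ i j
    simp only [Pi.smul_apply, smul_eq_mul]
    ring

/-- equal colours as equations -/
theorem col_iff {K : Type} [Field K] (φ : A →+* K) {G : ν → MvPolynomial (Fin (n + 1)) A}
    (hG : ∀ l, ∃ d, (G l).IsHomogeneous d) (t : Par n a r → K) (w w' : List (Fin a))
    (hw : pval t w ≠ 0) (hw' : pval t w' ≠ 0) :
    (∀ P ∈ Eqs G a r w w', eval₂ φ t P = 0) ↔ col φ G (pval t w) = col φ G (pval t w') := by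
  have hev1 : ∀ i j l, eval₂ φ t ((xg A n a r w i * xg A n a r w' j -
      xg A n a r w j * xg A n a r w' i) * aeval (xg A n a r w) (G l)) =
      (pval t w i * pval t w' j - pval t w j * pval t w' i) * eval₂ φ (pval t w) (G l) := by
    intro i j l
    rw [eval₂_mul, eval₂_sub, eval₂_mul, eval₂_mul, ev_form, ev_xg, ev_xg, ev_xg, ev_xg]
  have hev2 : ∀ i j l, eval₂ φ t ((xg A n a r w i * xg A n a r w' j -
      xg A n a r w j * xg A n a r w' i) * aeval (xg A n a r w') (G l)) =
      (pval t w i * pval t w' j - pval t w j * pval t w' i) * eval₂ φ (pval t w') (G l) := by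
    intro i j l
    rw [eval₂_mul, eval₂_sub, eval₂_mul, eval₂_mul, ev_form, ev_xg, ev_xg, ev_xg, ev_xg]
  constructor
  · intro h
    have key : ∀ l, eval₂ φ (pval t w) (G l) ≠ 0 ∨ eval₂ φ (pval t w') (G l) ≠ 0 →
        ∀ i j, pval t w i * pval t w' j - pval t w j * pval t w' i = 0 := by
      rintro l (hl | hl) i j
      · have h1 := h _ ⟨i, j, l, Or.inl rfl⟩
        rw [hev1] at h1
        exact (mul_eq_zero.1 h1).resolve_right hl
      · have h1 := h _ ⟨i, j, l, Or.inr rfl⟩
        rw [hev2] at h1
        exact (mul_eq_zero.1 h1).resolve_right hl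
    by_cases h1 : ∀ l, eval₂ φ (pval t w) (G l) = 0
    · by_cases h2 : ∀ l, eval₂ φ (pval t w') (G l) = 0
      · unfold col
        rw [if_pos h1, if_pos h2]
      · push Not at h2
        obtain ⟨l, hl⟩ := h2
        obtain ⟨c, hc, h3⟩ := (prop_iff hw hw').1 (key l (Or.inr hl))
        rw [h3, col_smul φ hG c hc]
    · push Not at h1
      obtain ⟨l, hl⟩ := h1
      obtain ⟨c, hc, h3⟩ := (prop_iff hw hw').1 (key l (Or.inl hl))
      rw [h3, col_smul φ hG c hc]
  · intro h
    have key : (∀ l, eval₂ φ (pval t w) (G l) = 0) ∧ (∀ l, eval₂ φ (pval t w') (G l) = 0) ∨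
        ∀ i j, pval t w i * pval t w' j - pval t w j * pval t w' i = 0 := by
      unfold col at h
      by_cases h1 : ∀ l, eval₂ φ (pval t w) (G l) = 0
      · by_cases h2 : ∀ l, eval₂ φ (pval t w') (G l) = 0
        · exact Or.inl ⟨h1, h2⟩
        · rw [if_pos h1, if_neg h2] at h
          exact absurd h (by simp)
      · by_cases h2 : ∀ l, eval₂ φ (pval t w') (G l) = 0
        · rw [if_neg h1, if_pos h2] at h
          exact absurd h (by simp)
        · right
          rw [if_neg h1, if_neg h2, Option.some_inj] at h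
          rw [prop_iff hw hw']
          have h3 : pval t w' ∈ Submodule.span K {pval t w} := by
            rw [h]
            exact Submodule.mem_span_singleton_self _
          obtain ⟨c, hc⟩ := Submodule.mem_span_singleton.1 h3
          refine ⟨c, ?_, hc.symm⟩
          rintro rfl
          rw [zero_smul] at hc
          exact hw' hc.symm
    rintro P ⟨i, j, l, rfl | rfl⟩
    · rw [hev1]
      rcases key with ⟨h1, -⟩ | h1
      · rw [h1 l, mul_zero]
      · rw [h1 i j, zero_mul]
    · rw [hev2]
      rcases key with ⟨-, h1⟩ | h1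
      · rw [h1 l, mul_zero]
      · rw [h1 i j, zero_mul]

/-- the change of the field -/
theorem ev_comp {K K' : Type} [Field K] [Field K'] (ψ : K →+* K') (φ : A →+* K)
    (t : Par n a r → K) (P : MvPolynomial (Par n a r) A) :
    eval₂ (ψ.comp φ) (fun p => ψ (t p)) P = ψ (eval₂ φ t P) :=
  (hom_eval₂ P φ ψ t).symm

theorem same_comp {K K' : Type} [Field K] [Field K'] (ψ : K →+* K') (φ : A →+* K)
    (G : ν → MvPolynomial (Fin (n + 1)) A) (D : DFA (Fin a) (Fin q)) (t : Par n a r → K)
    (w w' : List (Fin a)) :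
    Same (ψ.comp φ) G D (fun p => ψ (t p)) w w' ↔ Same φ G D t w w' := by
  unfold Same
  refine and_congr Iff.rfl (forall_congr' fun _ => forall_congr' fun P => forall_congr' fun _ => ?_)
  rw [ev_comp]
  exact map_eq_zero_iff ψ ψ.injective

theorem valid_comp {K K' : Type} [Field K] [Field K'] (ψ : K →+* K') (φ : A →+* K)
    (F : ι → MvPolynomial (Fin (n + 1)) A) (D : DFA (Fin a) (Fin q)) (t : Par n a r → K) :
    Valid (ψ.comp φ) F D (fun p => ψ (t p)) ↔ Valid φ F D t := by
  have h1 : ∀ w, pval (fun p => ψ (t p)) w = fun i => ψ (pval t w i) :=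
    fun w => (pval_map ψ t w).symm
  unfold Valid
  refine forall_congr' fun w => forall_congr' fun _ => and_congr ?_ ?_
  · rw [h1]
    exact exists_congr fun i => not_congr (map_eq_zero_iff ψ ψ.injective)
  · refine forall_congr' fun i => ?_
    rw [h1]
    have h2 : eval₂ (ψ.comp φ) (fun i => ψ (pval t w i)) (F i) = ψ (eval₂ φ (pval t w) (F i)) :=
      (hom_eval₂ (F i) φ ψ (pval t w)).symm
    rw [h2]
    exact map_eq_zero_iff ψ ψ.injective

end generic

end Pool.Agent.R477.WD
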