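import Pool.Agent.R477.WD.Main

set_option autoImplicit false

/-!
# Curves give linear recurrence sequences with infinitely many points
-/

namespace Pool.Agent.R477.WD

open MvPolynomial Pool.Agent.R477.WA Pool.Agent.R393.SP Pool.Agent.R393.UO

variable {A ι ν : Type} [CommRing A] {n : ℕ}

section sgen

variable (K : Type) [Field K]

/-- the generic element -/
noncomputable def sg : FractionRing (Polynomial K) :=
  algebraMap (Polynomial K) (FractionRing (Polynomial K)) Polynomial.X

variable {K}

theorem sg_ne (p : Polynomial K) (hp : p ≠ 0) (k : ℕ) (hk : 0 < k) :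
    (p.map (algebraMap K (FractionRing (Polynomial K)))).eval (sg K ^ k) ≠ 0 := by
  have h1 : (p.map (algebraMap K (FractionRing (Polynomial K)))).eval (sg K ^ k) =
      algebraMap (Polynomial K) (FractionRing (Polynomial K)) (Polynomial.expand K k p) := by
    rw [Polynomial.eval_map, ← Polynomial.aeval_def]
    unfold sg
    rw [← map_pow, Polynomial.aeval_algebraMap_apply, Polynomial.expand_eq_comp_X_pow]
    rfl
  rw [h1]
  intro h0
  have h2 := (map_eq_zero_iff _ (IsFractionRing.injective (Polynomial K)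
    (FractionRing (Polynomial K)))).1 h0
  exact hp ((Polynomial.expand_eq_zero hk).1 h2)

theorem sg_inj : Function.Injective fun m : ℕ => sg K ^ (m + 1) := by
  intro m m' h
  unfold sg at h
  simp only [← map_pow] at h
  have h1 := IsFractionRing.injective (Polynomial K) (FractionRing (Polynomial K)) h
  have h2 := congrArg Polynomial.natDegree h1
  rw [Polynomial.natDegree_X_pow, Polynomial.natDegree_X_pow] at h2
  omega

end sgen

/-- the sequence of the values of the curve at the powers of the generic element -/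
theorem inf_rec {F : ι → MvPolynomial (Fin (n + 1)) A} {G : ν → MvPolynomial (Fin (n + 1)) A}
    {K : Type} [Field K] (φ : A →+* K) (P : Fin (n + 1) → Polynomial K)
    (hF : ∀ i, aeval P (map φ (F i)) = 0) (l0 : ν) (hG : aeval P (map φ (G l0)) ≠ 0)
    (i0 j0 : Fin (n + 1)) (hc : P i0 * Polynomial.C ((P j0).eval 1) ≠
      P j0 * Polynomial.C ((P i0).eval 1)) (e : ℕ) (he : ∀ i, (P i).natDegree ≤ e) :
    ∃ (T : Matrix (Fin (e + 1)) (Fin (e + 1)) (FractionRing (Polynomial K)))
      (M : Matrix (Fin (n + 1)) (Fin (e + 1)) (FractionRing (Polynomial K)))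
      (v : Fin (e + 1) → FractionRing (Polynomial K)),
      (∀ m : ℕ, M.mulVec ((T ^ m).mulVec v) ≠ 0 ∧
        ∀ i, eval₂ ((algebraMap K (FractionRing (Polynomial K))).comp φ)
          (M.mulVec ((T ^ m).mulVec v)) (F i) = 0) ∧
      ¬ {Q : Submodule (FractionRing (Polynomial K)) (Fin (n + 1) → FractionRing (Polynomial K)) |
        ∃ m : ℕ, (∃ l, eval₂ ((algebraMap K (FractionRing (Polynomial K))).comp φ)
          (M.mulVec ((T ^ m).mulVec v)) (G l) ≠ 0) ∧
        Q = Submodule.span _ {M.mulVec ((T ^ m).mulVec v)}}.Finite := by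
  classical
  let K' := FractionRing (Polynomial K)
  let ψ : K →+* K' := algebraMap K K'
  let T : Matrix (Fin (e + 1)) (Fin (e + 1)) K' := Matrix.diagonal fun j => sg K ^ (j : ℕ)
  let M : Matrix (Fin (n + 1)) (Fin (e + 1)) K' := Matrix.of fun i j => ψ ((P i).coeff (j : ℕ))
  let v : Fin (e + 1) → K' := fun j => sg K ^ (j : ℕ)
  let PP : Fin (n + 1) → Polynomial K' := fun i => (P i).map ψ
  have hx : ∀ m : ℕ, M.mulVec ((T ^ m).mulVec v) = fun i => (PP i).eval (sg K ^ (m + 1)) := by
    intro m
    funext i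
    have h1 : (T ^ m).mulVec v = fun j : Fin (e + 1) => (sg K ^ (m + 1)) ^ (j : ℕ) := by
      funext j
      show ((Matrix.diagonal fun j : Fin (e + 1) => sg K ^ (j : ℕ)) ^ m).mulVec v j = _
      rw [Matrix.diagonal_pow, Matrix.mulVec_diagonal]
      show (sg K ^ (j : ℕ)) ^ m * sg K ^ (j : ℕ) = _
      rw [← pow_mul, ← pow_add, ← pow_mul]
      congr 1
      ring
    rw [h1]
    show ∑ j : Fin (e + 1), ψ ((P i).coeff (j : ℕ)) * (sg K ^ (m + 1)) ^ (j : ℕ) = _
    have h2 : (PP i).natDegree < e + 1 :=
      Nat.lt_succ_of_le (Polynomial.natDegree_map_le.trans (he i))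
    rw [Polynomial.eval_eq_sum_range' h2, Finset.sum_range]
    refine Finset.sum_congr rfl fun j _ => ?_
    rw [Polynomial.coeff_map]
  have hev : ∀ (R : MvPolynomial (Fin (n + 1)) A) (m : ℕ),
      eval₂ (ψ.comp φ) (M.mulVec ((T ^ m).mulVec v)) R =
        ((aeval P (map φ R)).map ψ).eval (sg K ^ (m + 1)) := by
    intro R m
    rw [hx, map_aevalP, map_map]
    have h1 := ev_poly (k := K') PP (map (ψ.comp φ) R) (sg K ^ (m + 1))
    rw [aeval_def, eval₂_map] at h1
    exact h1
  have hP0 : ∃ i, P i ≠ 0 := by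
    by_contra hcon
    push Not at hcon
    apply hc
    rw [hcon, hcon]
  have hne : ∀ m : ℕ, M.mulVec ((T ^ m).mulVec v) ≠ 0 := by
    intro m h0
    obtain ⟨i, hi⟩ := hP0
    rw [hx] at h0
    exact sg_ne (P i) hi (m + 1) (Nat.succ_pos m) (congrFun h0 i)
  refine ⟨T, M, v, fun m => ⟨hne m, fun i => ?_⟩, fun hfin => ?_⟩
  · rw [hev, hF, Polynomial.map_zero, Polynomial.eval_zero]
  · have hGm : ∀ m : ℕ, eval₂ (ψ.comp φ) (M.mulVec ((T ^ m).mulVec v)) (G l0) ≠ 0 := by
      intro m
      rw [hev]
      exact sg_ne _ hG (m + 1) (Nat.succ_pos m)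
    let f : ℕ → Submodule K' (Fin (n + 1) → K') := fun m =>
      Submodule.span K' {M.mulVec ((T ^ m).mulVec v)}
    have hrange : (Set.range f).Finite := by
      refine hfin.subset ?_
      rintro _ ⟨m, rfl⟩
      exact ⟨m, ⟨l0, hGm m⟩, rfl⟩
    have := hrange.to_subtype
    obtain ⟨Q, hQ⟩ := Finite.exists_infinite_fiber (Set.rangeFactorization f)
    have hQi : (Set.rangeFactorization f ⁻¹' {Q}).Infinite := Set.infinite_coe_iff.1 hQ
    obtain ⟨m0, hm0⟩ := hQi.nonempty
    set u : Fin (n + 1) → K' := M.mulVec ((T ^ m0).mulVec v) with hu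
    have hcross : ∀ m ∈ Set.rangeFactorization f ⁻¹' {Q}, ∀ i j,
        (PP i).eval (sg K ^ (m + 1)) * u j = (PP j).eval (sg K ^ (m + 1)) * u i := by
      intro m hm i j
      have h1 : f m = f m0 := by
        have h2 : Set.rangeFactorization f m = Q := hm
        have h3 : Set.rangeFactorization f m0 = Q := hm0
        exact congrArg Subtype.val (h2.trans h3.symm)
      have h2 : M.mulVec ((T ^ m).mulVec v) ∈ Submodule.span K' {u} := by
        show _ ∈ f m0
        rw [← h1]
        exact Submodule.mem_span_singleton_self _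
      obtain ⟨c, hc'⟩ := Submodule.mem_span_singleton.1 h2
      have h3 : ∀ i, (PP i).eval (sg K ^ (m + 1)) = c * u i := by
        intro i
        have h4 := congrFun hc' i
        rw [hx] at h4
        exact h4.symm
      rw [h3, h3]
      ring
    have hpoly : ∀ i j, PP i * Polynomial.C (u j) = PP j * Polynomial.C (u i) := by
      intro i j
      apply Polynomial.eq_of_infinite_eval_eq
      refine Set.Infinite.mono ?_ (hQi.image (f := fun m : ℕ => sg K ^ (m + 1)) sg_inj.injOn)
      rintro _ ⟨m, hm, rfl⟩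
      show (PP i * Polynomial.C (u j)).eval _ = (PP j * Polynomial.C (u i)).eval _
      rw [Polynomial.eval_mul, Polynomial.eval_mul, Polynomial.eval_C, Polynomial.eval_C]
      exact hcross m hm i j
    obtain ⟨k, hk⟩ : ∃ k, u k ≠ 0 := by
      by_contra hcon
      push Not at hcon
      exact hne m0 (funext hcon)
    have h1 : ∀ i, (PP i).eval 1 * u k = (PP k).eval 1 * u i := by
      intro i
      have h2 := congrArg (Polynomial.eval 1) (hpoly i k)
      rwa [Polynomial.eval_mul, Polynomial.eval_mul, Polynomial.eval_C, Polynomial.eval_C] at h2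
    have h2 : PP i0 * Polynomial.C ((PP j0).eval 1) = PP j0 * Polynomial.C ((PP i0).eval 1) := by
      have hk2 : Polynomial.C (u k * u k) ≠ 0 := by
        rw [Ne, Polynomial.C_eq_zero]
        exact mul_ne_zero hk hk
      apply mul_right_cancel₀ hk2
      have e1 := hpoly i0 k
      have e2 := hpoly j0 k
      have e3 := congrArg (Polynomial.C (R := K')) (h1 i0)
      have e4 := congrArg (Polynomial.C (R := K')) (h1 j0)
      simp only [Polynomial.C_mul] at e3 e4 ⊢
      linear_combination (Polynomial.C ((PP j0).eval 1) * Polynomial.C (u k)) * e1 -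
        (Polynomial.C ((PP i0).eval 1) * Polynomial.C (u k)) * e2 +
        (PP k * Polynomial.C (u i0)) * e4 - (PP k * Polynomial.C (u j0)) * e3
    apply hc
    have hinj : Function.Injective (Polynomial.map ψ) :=
      Polynomial.map_injective ψ ψ.injective
    apply hinj
    rw [Polynomial.map_mul, Polynomial.map_mul, Polynomial.map_C, Polynomial.map_C]
    have h3 : ∀ i, ψ ((P i).eval 1) = (PP i).eval 1 := fun i => by
      show ψ ((P i).eval 1) = ((P i).map ψ).eval 1
      rw [Polynomial.eval_one_map]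
    rw [h3, h3]
    exact h2

/-- the converse in positive characteristic -/
theorem rat_of_rec [CharZero A] [Algebra.FiniteType ℤ A] {F : ι → MvPolynomial (Fin (n + 1)) A}
    {G : ν → MvPolynomial (Fin (n + 1)) A} (h : RecurrencesBounded F G) : RatInA F G := by
  classical
  intro L _ φ hφ p0 hp0 hc0 l
  by_contra hG0
  have hL : CharZero L := by
    refine charZero_of_inj_zero fun N hN => ?_
    have h1 : φ (N : A) = 0 := by rw [map_natCast]; exact hN
    have h2 := (injective_iff_map_eq_zero φ).1 hφ _ h1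
    exact_mod_cast h2
  have hnr : ¬ Pool.Agent.R849.PR.RatIn (fun i => map φ (F i)) (fun l => map φ (G l)) :=
    fun h1 => hG0 (h1 L p0 hp0 hc0 l)
  obtain ⟨L', _, _, p, l0, hp, ⟨i0, j0, hc⟩, hG⟩ := Pool.Agent.R849.PR.curve_of_not _ _ hnr
  have hL' : CharZero L' := charZero_of_injective_algebraMap (algebraMap L L').injective
  let φ' : A →+* L' := (algebraMap L L').comp φ
  have hφ' : Function.Injective φ' := (algebraMap L L').injective.comp hφ
  have hp' : ∀ i, aeval p (map φ' (F i)) = 0 := by
    intro i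
    rw [← hp i, ← map_map, aeval_map_algebraMap]
  have hG' : aeval (fun i => (p i).eval 1) (map φ' (G l0)) ≠ 0 := by
    intro h0
    apply hG
    rw [← h0, ← map_map, aeval_map_algebraMap]
  obtain ⟨e, he⟩ : ∃ e, ∀ i, (p i).natDegree ≤ e := by
    refine ⟨∑ i, (p i).natDegree, fun i => ?_⟩
    exact Finset.single_le_sum (f := fun i => (p i).natDegree) (fun _ _ => Nat.zero_le _)
      (Finset.mem_univ i)
  obtain ⟨a, ha, B, N, hB⟩ := h (e + 1)
  set U : Polynomial L' := p i0 * Polynomial.C ((p j0).eval 1) -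
    p j0 * Polynomial.C ((p i0).eval 1) with hU
  have hU0 : U ≠ 0 := sub_ne_zero.2 hc
  obtain ⟨m0, hm0⟩ : ∃ m, U.coeff m ≠ 0 := by
    by_contra hcon
    push Not at hcon
    exact hU0 (Polynomial.ext fun m => by rw [hcon m, Polynomial.coeff_zero])
  set g1 : L' := aeval (fun i => (p i).eval 1) (map φ' (G l0)) with hg1
  obtain ⟨TT, hTT⟩ := (Algebra.FiniteType.out : (⊤ : Subalgebra ℤ A).FG)
  let S : Finset L' := TT.image φ' ∪ ((Finset.univ.biUnion fun i => (p i).coeffs) ∪
    {g1⁻¹, (U.coeff m0)⁻¹, (φ' a)⁻¹})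
  obtain ⟨N', hN', hres⟩ := Pool.Agent.TH717.GO.exists_residue S
  obtain ⟨q, hqN, hq⟩ := Nat.exists_infinite_primes (N + N' + 1)
  obtain ⟨Fq, _, _, hchar, ⟨g⟩⟩ := hres q hq (fun h1 => by
    have := Nat.le_of_dvd (Nat.pos_of_ne_zero hN') h1
    omega)
  let R' := Algebra.adjoin ℤ (S : Set L')
  have hS : ∀ s ∈ S, s ∈ R' := fun s hs => Algebra.subset_adjoin (Finset.mem_coe.2 hs)
  have hA : ∀ x : A, φ' x ∈ R' := by
    intro x
    have h1 : x ∈ Algebra.adjoin ℤ (TT : Set A) := by rw [hTT]; exact Algebra.mem_top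
    induction h1 using Algebra.adjoin_induction with
    | mem x hx =>
      exact hS _ (Finset.mem_union_left _ (Finset.mem_image.2 ⟨x, hx, rfl⟩))
    | algebraMap z =>
      have h2 : φ' (algebraMap ℤ A z) = algebraMap ℤ L' z := by simp
      rw [h2]
      exact Subalgebra.algebraMap_mem _ _
    | add x y _ _ hx hy => rw [map_add]; exact add_mem hx hy
    | mul x y _ _ hx hy => rw [map_mul]; exact mul_mem hx hy
  let φR : A →+* R' := φ'.codRestrict R' hA
  have hφR : (algebraMap R' L').comp φR = φ' := RingHom.ext fun x => rfl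
  have hcoef : ∀ i m, (p i).coeff m ∈ R' := by
    intro i m
    by_cases h0 : (p i).coeff m = 0
    · rw [h0]
      exact zero_mem _
    · refine hS _ (Finset.mem_union_right _ (Finset.mem_union_left _ (Finset.mem_biUnion.2
        ⟨i, Finset.mem_univ _, ?_⟩)))
      exact Polynomial.coeff_mem_coeffs h0
  have hlift : ∀ i, ∃ P : Polynomial R', P.map (algebraMap R' L') = p i ∧
      P.natDegree ≤ e := by
    intro i
    refine ⟨∑ m ∈ Finset.range (e + 1), Polynomial.C (⟨(p i).coeff m, hcoef i m⟩ : R') *
      Polynomial.X ^ m, ?_, ?_⟩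
    · rw [Polynomial.map_sum]
      conv_rhs => rw [Polynomial.as_sum_range_C_mul_X_pow' (p i) (Nat.lt_succ_of_le (he i))]
      refine Finset.sum_congr rfl fun m _ => ?_
      rw [Polynomial.map_mul, Polynomial.map_C, Polynomial.map_pow, Polynomial.map_X]
      rfl
    · refine Polynomial.natDegree_sum_le_of_forall_le _ _ fun m hm => ?_
      exact (Polynomial.natDegree_C_mul_X_pow_le _ _).trans (Nat.lt_succ_iff.1 (Finset.mem_range.1 hm))
  choose P hP hPe using hlift
  let K := AlgebraicClosure Fq
  let ψ : R' →+* K := (algebraMap Fq K).comp g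
  have hKchar : ringChar K = q := by
    rw [← hchar]
    exact (Algebra.ringChar_eq Fq K).symm
  have hinj : Function.Injective (algebraMap R' L') := Subtype.val_injective
  have hunit : ∀ x : R', (algebraMap R' L' x)⁻¹ ∈ R' → algebraMap R' L' x ≠ 0 → ψ x ≠ 0 := by
    intro x hx hx0 h0
    have h1 : x * ⟨_, hx⟩ = 1 := Subtype.ext (mul_inv_cancel₀ hx0)
    have h2 := congrArg ψ h1
    rw [map_mul, h0, zero_mul, map_one] at h2
    exact zero_ne_one h2
  have hev : ∀ i, algebraMap R' L' ((P i).eval 1) = (p i).eval 1 := by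
    intro i
    rw [← hP i, Polynomial.eval_one_map]
  have hevK : ∀ i, ψ ((P i).eval 1) = ((P i).map ψ).eval 1 := by
    intro i
    rw [Polynomial.eval_one_map]
  -- the equations
  have hFR : ∀ i, aeval P (map φR (F i)) = 0 := by
    intro i
    apply Polynomial.map_injective _ hinj
    rw [map_aevalP, Polynomial.map_zero, map_map, hφR]
    have h1 : (fun i => (P i).map (algebraMap R' L')) = p := funext hP
    rw [h1]
    exact hp' i
  have hFK : ∀ i, aeval (fun i => (P i).map ψ) (map (ψ.comp φR) (F i)) = 0 := by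
    intro i
    have h1 := congrArg (Polynomial.map ψ) (hFR i)
    rw [map_aevalP, Polynomial.map_zero, map_map] at h1
    exact h1
  have hGK : aeval (fun i => ((P i).map ψ).eval 1) (map (ψ.comp φR) (G l0)) ≠ 0 := by
    have h1 : ψ (aeval (fun i => (P i).eval 1) (map φR (G l0))) =
        aeval (fun i => ((P i).map ψ).eval 1) (map (ψ.comp φR) (G l0)) := by
      rw [map_aevalE, map_map]
      congr 1
      congr 1
      exact funext hevK
    rw [← h1]
    have h2 : algebraMap R' L' (aeval (fun i => (P i).eval 1) (map φR (G l0))) = g1 := by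
      rw [map_aevalE, map_map, hφR, hg1]
      congr 1
      congr 1
      exact funext hev
    apply hunit
    · rw [h2]
      exact hS _ (Finset.mem_union_right _ (Finset.mem_union_right _ (by simp)))
    · rw [h2]
      exact hG'
  have hcK : (P i0).map ψ * Polynomial.C (((P j0).map ψ).eval 1) ≠
      (P j0).map ψ * Polynomial.C (((P i0).map ψ).eval 1) := by
    intro h0
    have h1 : ((P i0 * Polynomial.C ((P j0).eval 1) - P j0 * Polynomial.C ((P i0).eval 1)).map
        (algebraMap R' L')) = U := by
      rw [Polynomial.map_sub, Polynomial.map_mul, Polynomial.map_mul, Polynomial.map_C,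
        Polynomial.map_C, hP, hP, hev, hev]
    have h2 : ((P i0 * Polynomial.C ((P j0).eval 1) - P j0 * Polynomial.C ((P i0).eval 1)).map
        ψ) = 0 := by
      rw [Polynomial.map_sub, Polynomial.map_mul, Polynomial.map_mul, Polynomial.map_C,
        Polynomial.map_C, hevK, hevK]
      exact sub_eq_zero.2 h0
    have h3 : algebraMap R' L' ((P i0 * Polynomial.C ((P j0).eval 1) -
        P j0 * Polynomial.C ((P i0).eval 1)).coeff m0) = U.coeff m0 := by
      rw [← Polynomial.coeff_map, h1]
    refine hunit ((P i0 * Polynomial.C ((P j0).eval 1) -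
        P j0 * Polynomial.C ((P i0).eval 1)).coeff m0) ?_ ?_ ?_
    · rw [h3]
      exact hS _ (Finset.mem_union_right _ (Finset.mem_union_right _ (by simp)))
    · rw [h3]
      exact hm0
    · rw [← Polynomial.coeff_map, h2, Polynomial.coeff_zero]
  have haK : (ψ.comp φR) a ≠ 0 := by
    change ψ (φR a) ≠ 0
    have h2 : algebraMap R' L' (φR a) = φ' a := rfl
    apply hunit
    · rw [h2]
      exact hS _ (Finset.mem_union_right _ (Finset.mem_union_right _ (by simp)))
    · rw [h2]
      intro h3
      exact ha ((injective_iff_map_eq_zero φ').1 hφ' a h3)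
  -- the sequence
  have hGK' : aeval (fun i => (P i).map ψ) (map (ψ.comp φR) (G l0)) ≠ 0 := by
    intro h0
    apply hGK
    have h1 := ev_poly (k := K) (fun i => (P i).map ψ) (map (ψ.comp φR) (G l0)) 1
    rw [h1, h0, Polynomial.eval_zero]
  obtain ⟨T, M, v, hv, hinf⟩ := inf_rec (F := F) (G := G) (ψ.comp φR) (fun i => (P i).map ψ) hFK l0
    hGK' i0 j0 hcK e (fun i => (Polynomial.natDegree_map_le).trans (hPe i))
  apply hinf
  have hKchar' : ringChar (FractionRing (Polynomial K)) = q := by
    rw [← hKchar]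
    exact (Algebra.ringChar_eq K (FractionRing (Polynomial K))).symm
  exact Set.finite_of_encard_le_coe (hB (FractionRing (Polynomial K))
    ((algebraMap K (FractionRing (Polynomial K))).comp (ψ.comp φR))
    (by
      intro h0
      apply haK
      rw [RingHom.comp_apply] at h0
      exact (map_eq_zero_iff _ (algebraMap K (FractionRing (Polynomial K))).injective).1 h0)
    (by rw [hKchar']; omega) T M v hv)

theorem tfaeD [IsDomain A] [CharZero A] [Algebra.FiniteType ℤ A] [Countable A] [Finite ν]
    {F : ι → MvPolynomial (Fin (n + 1)) A} {G : ν → MvPolynomial (Fin (n + 1)) A}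
    (hF : ∀ i, ∃ d, (F i).IsHomogeneous d) (hG : ∀ l, ∃ d, (G l).IsHomogeneous d) :
    List.TFAE [RatInA F G, FewStates F G, RecurrencesBounded F G] := by
  have : IsNoetherianRing A := Algebra.FiniteType.isNoetherianRing ℤ A
  tfae_have 1 → 2 := fewStates hF hG
  tfae_have 2 → 3 := rec_of_few
  tfae_have 3 → 1 := rat_of_rec
  tfae_finish

end Pool.Agent.R477.WD
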