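import Pool.Agent.R477.WD.Cx

set_option autoImplicit false

/-!
# The number of states is bounded on almost all fibres
-/

namespace Pool.Agent.R477.WD

open MvPolynomial Pool.Agent.R477.WA Pool.Agent.R393.SP

variable {A ι ν : Type} [CommRing A] {n a r q : ℕ} {F : ι → MvPolynomial (Fin (n + 1)) A}
  {G : ν → MvPolynomial (Fin (n + 1)) A}

open Classical in
/-- The output of the automaton: nothing, if the word is not accepted; otherwise the point, if it is
not in `G = 0`. -/
noncomputable def out {K : Type} [Field K] (φ : A →+* K) (G : ν → MvPolynomial (Fin (n + 1)) A)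
    (D : DFA (Fin a) (Fin q)) (t : Par n a r → K) (w : List (Fin a)) :
    Option (Option (Submodule K (Fin (n + 1) → K))) :=
  if w ∈ D.accepts then some (col φ G (pval t w)) else none

theorem same_iff {K : Type} [Field K] (φ : A →+* K) (hG : ∀ l, ∃ d, (G l).IsHomogeneous d)
    (D : DFA (Fin a) (Fin q)) (t : Par n a r → K) (hv : Valid φ F D t) (x y : List (Fin a)) :
    Same φ G D t x y ↔ out φ G D t x = out φ G D t y := by
  classical
  have hne : ∀ w ∈ D.accepts, pval t w ≠ 0 := by
    intro w hw h0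
    obtain ⟨⟨i, hi⟩, -⟩ := hv w hw
    exact hi (congrFun h0 i)
  unfold Same out
  by_cases hx : x ∈ D.accepts
  · by_cases hy : y ∈ D.accepts
    · rw [if_pos hx, if_pos hy, Option.some_inj, ← col_iff φ hG t x y (hne x hx) (hne y hy)]
      exact ⟨fun h => h.2 hx, fun h => ⟨iff_of_true hx hy, fun _ => h⟩⟩
    · rw [if_pos hx, if_neg hy]
      exact iff_of_false (fun h => hy (h.1.1 hx)) (by simp)
  · by_cases hy : y ∈ D.accepts
    · rw [if_neg hx, if_pos hy]
      exact iff_of_false (fun h => hx (h.1.2 hy)) (by simp)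
    · rw [if_neg hx, if_neg hy]
      exact iff_of_true ⟨iff_of_false hx hy, fun h => absurd h hx⟩ rfl

/-- There is a deterministic automaton with `B` states such that the state after reading a word
determines the output. -/
def Few {K : Type} [Field K] (φ : A →+* K) (G : ν → MvPolynomial (Fin (n + 1)) A)
    (D : DFA (Fin a) (Fin q)) (t : Par n a r → K) (B : ℕ) : Prop :=
  ∃ (δ : Fin B → Fin a → Fin B) (s : Fin B), ∀ w w' : List (Fin a),
    w.foldl δ s = w'.foldl δ s → Same φ G D t w w'

theorem Few.mono {K : Type} [Field K] {φ : A →+* K} {D : DFA (Fin a) (Fin q)}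
    {t : Par n a r → K} {B B' : ℕ} (h : Few φ G D t B) (hB : B ≤ B') : Few φ G D t B' := by
  obtain ⟨δ, s, h⟩ := h
  let ret : Fin B' → Fin B := fun x => if hx : x.1 < B then ⟨x.1, hx⟩ else s
  have hret : ∀ x : Fin B, ret (Fin.castLE hB x) = x := by
    intro x
    show (if hx : (Fin.castLE hB x).1 < B then (⟨(Fin.castLE hB x).1, hx⟩ : Fin B) else s) = x
    rw [dif_pos (show (Fin.castLE hB x).1 < B from x.2)]
    rfl
  have hfold : ∀ w : List (Fin a), w.foldl (fun x c => Fin.castLE hB (δ (ret x) c))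
      (Fin.castLE hB s) = Fin.castLE hB (w.foldl δ s) := by
    intro w
    induction w using List.reverseRecOn with
    | nil => rfl
    | append_singleton w c ih =>
      rw [List.foldl_append, List.foldl_append, ih, List.foldl_cons, List.foldl_nil,
        List.foldl_cons, List.foldl_nil, hret]
  refine ⟨fun x c => Fin.castLE hB (δ (ret x) c), Fin.castLE hB s, fun w w' hww => h w w' ?_⟩
  rw [hfold, hfold] at hww
  exact Fin.castLE_injective hB hww

theorem few_of {K : Type} [Field K] (φ : A →+* K) (hG : ∀ l, ∃ d, (G l).IsHomogeneous d)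
    (D : DFA (Fin a) (Fin q)) (t : Par n a r → K) (hv : Valid φ F D t) {b : ℕ}
    (ws : Fin b → List (Fin a)) (δ : Fin b → Fin a → Fin b) (s : Fin b)
    (h1 : ∀ i c u, Same φ G D t (ws i ++ ([c] ++ u)) (ws (δ i c) ++ u))
    (h2 : ∀ u, Same φ G D t u (ws s ++ u)) : Few φ G D t b := by
  have key : ∀ w u : List (Fin a), out φ G D t (w ++ u) = out φ G D t (ws (w.foldl δ s) ++ u) := by
    intro w
    induction w using List.reverseRecOn with
    | nil =>
      intro u
      rw [List.nil_append, List.foldl_nil]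
      exact (same_iff φ hG D t hv _ _).1 (h2 u)
    | append_singleton w c ih =>
      intro u
      rw [List.append_assoc, ih, List.foldl_append, List.foldl_cons, List.foldl_nil]
      exact (same_iff φ hG D t hv _ _).1 (h1 _ c u)
  refine ⟨δ, s, fun w w' hww => (same_iff φ hG D t hv _ _).2 ?_⟩
  have h3 := key w []
  have h4 := key w' []
  rw [List.append_nil] at h3 h4
  rw [h3, h4, hww]

theorem few_comp {K K' : Type} [Field K] [Field K'] (ψ : K →+* K') (φ : A →+* K)
    (D : DFA (Fin a) (Fin q)) (t : Par n a r → K) (B : ℕ) :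
    Few (ψ.comp φ) G D (fun p => ψ (t p)) B ↔ Few φ G D t B := by
  unfold Few
  refine exists_congr fun δ => exists_congr fun s => forall_congr' fun w => forall_congr' fun w' =>
    forall_congr' fun _ => ?_
  exact same_comp ψ φ G D t w w'

/-- the reduction to countable fields -/
theorem countable_case [Countable A] {K : Type} [Field K] (φ : A →+* K) {c : A} (hc : φ c ≠ 0)
    (D : DFA (Fin a) (Fin q)) (t : Par n a r → K) (hv : Valid φ F D t) {B : ℕ}
    (hB : ¬ Few φ G D t B) :
    ∃ (K' : Type) (_ : Field K') (_ : Countable K') (φ' : A →+* K') (t' : Par n a r → K'),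
      φ' c ≠ 0 ∧ Valid φ' F D t' ∧ ¬ Few φ' G D t' B := by
  let S0 : Set K := Set.range φ ∪ Set.range t
  have hS0 : S0.Countable := (Set.countable_range _).union (Set.countable_range _)
  let K' : Subfield K := Subfield.closure S0
  have hK' : Countable K' := by
    rw [← Cardinal.mk_le_aleph0_iff]
    refine (Subfield.cardinalMk_closure_le_max S0).trans ?_
    exact max_le (Cardinal.le_aleph0_iff_set_countable.2 hS0) le_rfl
  let φ' : A →+* K' := φ.codRestrict K' fun a => Subfield.subset_closure (Or.inl ⟨a, rfl⟩)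
  let t' : Par n a r → K' := fun p => ⟨t p, Subfield.subset_closure (Or.inr ⟨p, rfl⟩)⟩
  have hφ' : K'.subtype.comp φ' = φ := RingHom.ext fun a => rfl
  have ht' : (fun p => K'.subtype (t' p)) = t := rfl
  refine ⟨K', inferInstance, hK', φ', t', ?_, ?_, ?_⟩
  · intro h0
    apply hc
    rw [← hφ', RingHom.comp_apply, h0, map_zero]
  · rw [← valid_comp K'.subtype, hφ', ht']
    exact hv
  · rw [← few_comp K'.subtype, hφ', ht']
    exact hB

/-- **The number of states is bounded on almost all fibres.** -/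
theorem few_states [Countable A] [IsDomain A] [CharZero A] [IsNoetherianRing A] [Finite ν]
    (hF : ∀ i, ∃ d, (F i).IsHomogeneous d) (hG : ∀ l, ∃ d, (G l).IsHomogeneous d)
    (hrat : RatInA F G) (a q r : ℕ) :
    ∃ c : A, c ≠ 0 ∧ ∃ B : ℕ, ∀ (K : Type) [Field K] (φ : A →+* K), φ c ≠ 0 →
      ∀ (D : DFA (Fin a) (Fin q)) (t : Par n a r → K), Valid φ F D t → Few φ G D t B := by
  classical
  have := Fintype.ofFinite ν
  by_contra hcon
  -- one automaton
  have hfinD : Finite (DFA (Fin a) (Fin q)) := by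
    refine Finite.of_injective (fun D : DFA (Fin a) (Fin q) => (D.step, D.start, D.accept)) ?_
    rintro ⟨s1, s2, s3⟩ ⟨s1', s2', s3'⟩ h
    simp only [Prod.mk.injEq] at h
    obtain ⟨rfl, rfl, rfl⟩ := h
    rfl
  have := Fintype.ofFinite (DFA (Fin a) (Fin q))
  obtain ⟨D, hD⟩ : ∃ D : DFA (Fin a) (Fin q), ∀ c : A, c ≠ 0 → ∀ B : ℕ,
      ∃ (K : Type) (_ : Field K) (φ : A →+* K) (_ : φ c ≠ 0) (t : Par n a r → K),
        Valid φ F D t ∧ ¬ Few φ G D t B := by
    by_contra h
    push Not at h
    choose c hc B hB using h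
    apply hcon
    refine ⟨∏ D, c D, Finset.prod_ne_zero_iff.2 fun D _ => hc D, ∑ D, B D,
      fun K _ φ hφ D t hv => ?_⟩
    have h1 : φ (c D) ≠ 0 := by
      intro h0
      apply hφ
      rw [map_prod]
      exact Finset.prod_eq_zero (Finset.mem_univ D) h0
    exact (hB D K inferInstance φ h1 t hv).mono
      (Finset.single_le_sum (f := B) (fun _ _ => Nat.zero_le _) (Finset.mem_univ D))
  -- the sequence
  let S : Type := {a : A // a ≠ 0}
  have hne : Nonempty S := ⟨⟨1, one_ne_zero⟩⟩
  obtain ⟨en, hen⟩ := exists_surjective_nat S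
  let b : ℕ → A := fun T => ∏ j ∈ Finset.range (T + 1), (en j).1
  have hb : ∀ T, b T ≠ 0 := fun T => Finset.prod_ne_zero_iff.2 fun j _ => (en j).2
  have hD' : ∀ T : ℕ, ∃ (K' : Type) (_ : Field K') (_ : Countable K') (φ' : A →+* K')
      (t' : Par n a r → K'), φ' (b T) ≠ 0 ∧ Valid φ' F D t' ∧ ¬ Few φ' G D t' T := by
    intro T
    obtain ⟨K, _, φ, hφ, t, hv, hB⟩ := hD (b T) (hb T) T
    exact countable_case φ hφ D t hv hB
  choose K iF iC φ t hφb hv hB using hD'
  have hφ : ∀ a : A, a ≠ 0 → ∃ T0, ∀ T, T0 ≤ T → φ T a ≠ 0 := by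
    intro a ha
    obtain ⟨j, hj⟩ := hen ⟨a, ha⟩
    refine ⟨j, fun T hT h1 => hφb T ?_⟩
    change φ T (∏ j ∈ Finset.range (T + 1), (en j).1) = 0
    rw [map_prod]
    refine Finset.prod_eq_zero (Finset.mem_range.2 (Nat.lt_succ_of_le hT)) ?_
    rw [hj]
    exact h1
  obtain ⟨Θ, hΘ⟩ := theta_dep K (by
    intro N hN
    obtain ⟨T0, hT0⟩ := hφ (N : A) (Nat.cast_ne_zero.2 hN)
    refine ⟨T0, fun T hT => ?_⟩
    have h1 := hT0 T hT
    rwa [map_natCast] at h1)
  let σs : A →+* ℂ := Θ.comp (RingHom.pi φ)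
  have hσ : Function.Injective σs := by
    refine (injective_iff_map_eq_zero σs).2 fun a ha => ?_
    by_contra hne
    obtain ⟨T0, hT0⟩ := hφ a hne
    obtain ⟨-, h1⟩ := theta_neD hΘ (fun _ : Unit => fun T => φ T a) T0
      (fun T hT => ⟨(), hT0 T hT⟩)
    exact h1 ha
  let ts : Par n a r → ℂ := fun p => Θ fun T => t T p
  have key : ∀ P : MvPolynomial (Par n a r) A,
      eval₂ σs ts P = Θ fun T => eval₂ (φ T) (t T) P := by
    intro P
    have h1 : (eval₂Hom σs ts) = Θ.comp (RingHom.pi fun T => eval₂Hom (φ T) (t T)) := by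
      apply MvPolynomial.ringHom_ext
      · intro c
        rw [eval₂Hom_C, RingHom.comp_apply]
        show Θ _ = Θ _
        congr 1
        funext T
        show φ T c = eval₂Hom (φ T) (t T) (C c)
        rw [eval₂Hom_C]
      · intro p
        rw [eval₂Hom_X', RingHom.comp_apply]
        show Θ _ = Θ _
        congr 1
        funext T
        show t T p = eval₂Hom (φ T) (t T) (X p)
        rw [eval₂Hom_X']
    exact congrArg (fun h : MvPolynomial (Par n a r) A →+* ℂ => h P) h1
  have hvs : Valid σs F D ts := by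
    intro w hw
    constructor
    · obtain ⟨i, hi⟩ := theta_neD hΘ (fun (i : Fin (n + 1)) T => pval (t T) w i) 0
        (fun T _ => (hv T w hw).1)
      refine ⟨i, ?_⟩
      rw [← ev_xg σs ts w i, key]
      have h1 : (fun T => eval₂ (φ T) (t T) (xg A n a r w i)) = fun T => pval (t T) w i :=
        funext fun T => ev_xg (φ T) (t T) w i
      rw [h1]
      exact hi
    · intro i
      rw [← ev_form, key]
      have h1 : (fun T => eval₂ (φ T) (t T) (aeval (xg A n a r w) (F i))) = 0 := by
        funext T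
        rw [ev_form]
        exact (hv T w hw).2 i
      rw [h1, map_zero]
  obtain ⟨m, ws, δ, s, h1, h2⟩ := complex_case hF hG hrat σs hσ D ts hvs
  -- finitely many equations
  let E0 : Set (MvPolynomial (Par n a r) A) :=
    {P | (∃ i c u, ws i ++ ([c] ++ u) ∈ D.accepts ∧
      P ∈ Eqs G a r (ws i ++ ([c] ++ u)) (ws (δ i c) ++ u)) ∨
      ∃ u, u ∈ D.accepts ∧ P ∈ Eqs G a r u (ws s ++ u)}
  have hE0 : ∀ P ∈ E0, eval₂ σs ts P = 0 := by
    rintro P (⟨i, c, u, hu, hP⟩ | ⟨u, hu, hP⟩)
    · exact (h1 i c u).2 hu P hP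
    · exact (h2 u).2 hu P hP
  obtain ⟨S0, hS0⟩ := (isNoetherianRing_iff_ideal_fg _).1
    (inferInstance : IsNoetherianRing (MvPolynomial (Par n a r) A)) (Ideal.span E0)
  have hS0z : ∀ P ∈ S0, eval₂ σs ts P = 0 := by
    intro P hP
    have h3 : Ideal.span E0 ≤ RingHom.ker (eval₂Hom σs ts) :=
      Ideal.span_le.2 fun Q hQ => hE0 Q hQ
    have h4 : P ∈ Ideal.span E0 := by
      rw [← hS0]
      exact Ideal.subset_span hP
    exact h3 h4
  obtain ⟨T, hT, hTz⟩ : ∃ T, m ≤ T ∧ ∀ P ∈ S0, eval₂ (φ T) (t T) P = 0 := by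
    by_contra hno
    push Not at hno
    obtain ⟨P, hP⟩ := theta_neD hΘ (fun (P : S0) T => eval₂ (φ T) (t T) P.1) m
      (fun T hT => by
        obtain ⟨P, hP, h3⟩ := hno T hT
        exact ⟨⟨P, hP⟩, h3⟩)
    apply hP
    rw [← key]
    exact hS0z P.1 P.2
  have hTE : ∀ P ∈ E0, eval₂ (φ T) (t T) P = 0 := by
    intro P hP
    have h3 : Ideal.span (S0 : Set (MvPolynomial (Par n a r) A)) ≤
        RingHom.ker (eval₂Hom (φ T) (t T)) := Ideal.span_le.2 fun Q hQ => hTz Q hQ
    have h4 : P ∈ Ideal.span (S0 : Set (MvPolynomial (Par n a r) A)) := by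
      rw [hS0]
      exact Ideal.subset_span hP
    exact h3 h4
  apply hB T
  refine Few.mono (few_of (φ T) hG D (t T) (hv T) ws δ s (fun i c u => ?_) fun u => ?_) hT
  · exact ⟨(h1 i c u).1, fun hu P hP => hTE P (Or.inl ⟨i, c, u, hu, hP⟩)⟩
  · exact ⟨(h2 u).1, fun hu P hP => hTE P (Or.inr ⟨u, hu, hP⟩)⟩

end Pool.Agent.R477.WD
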