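import Pool.Agent.R477.WD.Lim
import Pool.Agent.R393.SP.Arith

set_option autoImplicit false

/-!
# Weighted automata on the fibres of a model: the theorem and its converse
-/

namespace Pool.Agent.R477.WD

open MvPolynomial Pool.Agent.R477.WA Pool.Agent.R393.SP Pool.Agent.R393.UO

variable {A ι ν : Type} [CommRing A] {n : ℕ}

open Classical in
/-- The output of the weighted automaton with the transition matrices `T a`, the matrix `M` and the
vector `v` over the field `K`, with the domain of the words accepted by `D`, at the word `w`: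
nothing, if `w` is not accepted; and otherwise the point with the homogeneous coordinates
`M T_{w_l} ⋯ T_{w_1} v`, or just the information that this point is a zero of all forms `G_l`. -/
noncomputable def output {K : Type} [Field K] (φ : A →+* K) {a q r : ℕ}
    (G : ν → MvPolynomial (Fin (n + 1)) A) (D : DFA (Fin a) (Fin q))
    (T : Fin a → Matrix (Fin r) (Fin r) K) (M : Matrix (Fin (n + 1)) (Fin r) K) (v : Fin r → K)
    (w : List (Fin a)) : Option (Option (Submodule K (Fin (n + 1) → K))) :=
  if w ∈ D.accepts then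
    some (if ∀ l, eval₂ φ (M.mulVec (vec T v w)) (G l) = 0 then none
      else some (Submodule.span K {M.mulVec (vec T v w)}))
  else none

/-- For all `a, q, r` there are a nonzero `c ∈ A` and a number `B` such that for all fields `K` and
all homomorphisms `φ : A → K` with `φ c ≠ 0` every weighted automaton over `K` of dimension `r`, with
`a` letters, whose values at the words accepted by a deterministic automaton `D` with `q` states are
points of the fibre of `F = 0`, is outside of `G = 0` computed by a deterministic automaton with `B`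
states. -/
def FewStates (F : ι → MvPolynomial (Fin (n + 1)) A) (G : ν → MvPolynomial (Fin (n + 1)) A) :
    Prop :=
  ∀ a q r : ℕ, ∃ c : A, c ≠ 0 ∧ ∃ B : ℕ, ∀ (K : Type) [Field K] (φ : A →+* K), φ c ≠ 0 →
    ∀ (D : DFA (Fin a) (Fin q)) (T : Fin a → Matrix (Fin r) (Fin r) K)
      (M : Matrix (Fin (n + 1)) (Fin r) K) (v : Fin r → K),
      (∀ w ∈ D.accepts, M.mulVec (vec T v w) ≠ 0 ∧
        ∀ i, eval₂ φ (M.mulVec (vec T v w)) (F i) = 0) →
      ∃ (δ : Fin B → Fin a → Fin B) (s : Fin B)
        (o : Fin B → Option (Option (Submodule K (Fin (n + 1) → K)))),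
        ∀ w, output φ G D T M v w = o (w.foldl δ s)

/-- For all `r` there are a nonzero `c ∈ A` and numbers `B`, `N` such that for all fields `K` of
characteristic greater than `N` and all homomorphisms `φ : A → K` with `φ c ≠ 0` every linear
recurrence sequence `M T ^ m v`, `m = 0, 1, 2, …`, of points of the fibre of `F = 0`, with an
arbitrary matrix `T` of size `r` over `K`, has at most `B` points outside of `G = 0`. -/
def RecurrencesBounded (F : ι → MvPolynomial (Fin (n + 1)) A)
    (G : ν → MvPolynomial (Fin (n + 1)) A) : Prop :=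
  ∀ r : ℕ, ∃ c : A, c ≠ 0 ∧ ∃ B N : ℕ, ∀ (K : Type) [Field K] (φ : A →+* K), φ c ≠ 0 →
    N < ringChar K → ∀ (T : Matrix (Fin r) (Fin r) K) (M : Matrix (Fin (n + 1)) (Fin r) K)
      (v : Fin r → K), (∀ m : ℕ, M.mulVec ((T ^ m).mulVec v) ≠ 0 ∧
        ∀ i, eval₂ φ (M.mulVec ((T ^ m).mulVec v)) (F i) = 0) →
      {Q : Submodule K (Fin (n + 1) → K) | ∃ m : ℕ,
        (∃ l, eval₂ φ (M.mulVec ((T ^ m).mulVec v)) (G l) ≠ 0) ∧
        Q = Submodule.span K {M.mulVec ((T ^ m).mulVec v)}}.encard ≤ B

theorem output_eq {K : Type} [Field K] (φ : A →+* K) {a q r : ℕ}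
    (G : ν → MvPolynomial (Fin (n + 1)) A) (D : DFA (Fin a) (Fin q))
    (T : Fin a → Matrix (Fin r) (Fin r) K) (M : Matrix (Fin (n + 1)) (Fin r) K) (v : Fin r → K)
    (w : List (Fin a)) : output φ G D T M v w = out φ G D (toPar T M v) w := by
  classical
  have h0 : pval (toPar T M v) w = M.mulVec (vec T v w) := rfl
  unfold output out col
  by_cases hw : w ∈ D.accepts
  · rw [if_pos hw, if_pos hw, h0]
  · rw [if_neg hw, if_neg hw]

theorem vec_pow {K : Type} [Field K] {r : ℕ} (T : Matrix (Fin r) (Fin r) K) (v : Fin r → K)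
    (w : List (Fin 1)) : vec (fun _ : Fin 1 => T) v w = (T ^ w.length).mulVec v := by
  induction w using List.reverseRecOn with
  | nil =>
    rw [List.length_nil, pow_zero, Matrix.one_mulVec]
    rfl
  | append_singleton w c ih =>
    unfold vec at ih ⊢
    rw [List.foldl_append, ih, List.foldl_cons, List.foldl_nil, List.length_append,
      List.length_singleton, pow_succ', Matrix.mulVec_mulVec]

/-- the automaton with one state which accepts everything -/
def allD : DFA (Fin 1) (Fin 1) := ⟨fun _ _ => 0, 0, Set.univ⟩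

theorem allD_acc (w : List (Fin 1)) : w ∈ allD.accepts := Set.mem_univ _

theorem fewStates [Countable A] [IsDomain A] [CharZero A] [IsNoetherianRing A] [Finite ν]
    {F : ι → MvPolynomial (Fin (n + 1)) A} {G : ν → MvPolynomial (Fin (n + 1)) A}
    (hF : ∀ i, ∃ d, (F i).IsHomogeneous d) (hG : ∀ l, ∃ d, (G l).IsHomogeneous d)
    (hrat : RatInA F G) : FewStates F G := by
  classical
  intro a q r
  obtain ⟨c, hc, B, hB⟩ := few_states hF hG hrat a q r
  refine ⟨c, hc, B, fun K _ φ hφ D T M v hv => ?_⟩
  have hv' : Valid φ F D (toPar T M v) := by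
    intro w hw
    obtain ⟨h1, h2⟩ := hv w hw
    refine ⟨?_, h2⟩
    by_contra hcon
    push Not at hcon
    exact h1 (funext hcon)
  obtain ⟨δ, s, h⟩ := hB K φ hφ D (toPar T M v) hv'
  refine ⟨δ, s, fun z => if hz : ∃ w : List (Fin a), w.foldl δ s = z then
    out φ G D (toPar T M v) hz.choose else none, fun w => ?_⟩
  have hz : ∃ w' : List (Fin a), w'.foldl δ s = w.foldl δ s := ⟨w, rfl⟩
  show _ = if hz : ∃ w' : List (Fin a), w'.foldl δ s = w.foldl δ s then
    out φ G D (toPar T M v) hz.choose else none
  rw [dif_pos hz, output_eq]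
  exact (same_iff φ hG D (toPar T M v) hv' _ _).1 (h _ _ hz.choose_spec.symm)

theorem rec_of_few {F : ι → MvPolynomial (Fin (n + 1)) A} {G : ν → MvPolynomial (Fin (n + 1)) A}
    (h : FewStates F G) : RecurrencesBounded F G := by
  classical
  intro r
  obtain ⟨c, hc, B, hB⟩ := h 1 1 r
  refine ⟨c, hc, B, 0, fun K _ φ hφ _ T M v hv => ?_⟩
  obtain ⟨δ, s, o, ho⟩ := hB K φ hφ allD (fun _ => T) M v (by
    intro w _
    rw [vec_pow]
    exact hv w.length)
  have hsub : {Q : Submodule K (Fin (n + 1) → K) | ∃ m : ℕ,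
        (∃ l, eval₂ φ (M.mulVec ((T ^ m).mulVec v)) (G l) ≠ 0) ∧
        Q = Submodule.span K {M.mulVec ((T ^ m).mulVec v)}} ⊆
      (fun x : Option (Option (Submodule K (Fin (n + 1) → K))) => (x.getD none).getD ⊥) ''
        Set.range o := by
    rintro Q ⟨m, ⟨l, hl⟩, rfl⟩
    refine ⟨o ((List.replicate m (0 : Fin 1)).foldl δ s), ⟨_, rfl⟩, ?_⟩
    rw [← ho]
    unfold output
    rw [if_pos (allD_acc _), vec_pow, List.length_replicate, if_neg (fun h0 => hl (h0 l))]
    rfl
  refine (Set.encard_le_encard hsub).trans ?_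
  refine (Set.encard_image_le _ _).trans ?_
  rw [← Set.image_univ]
  refine (Set.encard_image_le _ _).trans ?_
  rw [Set.encard_univ]
  simp

end Pool.Agent.R477.WD
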